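import Pool.Agent.Helper58.TS.Eng.Tree1
import Pool.Agent.Helper83.NE.One1

/-!
# `MixedI`
-/

set_option autoImplicit false

namespace Pool.Agent.Helper58.TS

open Pool.Agent.Helper58.Eng

/-- **The mixed case (I).** -/
theorem mixedI : Pool.Agent.Helper44.TS.MixedI :=
  mixedI_of_tree (fun _ h => Pool.Agent.Helper83.NE.dj1_ok h) (fun _ h => Pool.Agent.Helper83.NE.box1 h) 70
    lvs lvs_ok tr1 tr1_ok

end Pool.Agent.Helper58.TS
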