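import Pool.Agent.Helper58.TS.TallSame

/-!
# Two tall classes `F = (a; g)`, `G = (b; h)`, `F` of kind A on `b` and `G` of kind A on `a`

The component of `F` for `b` is at most `1 + d_b - q^b_g`, the component of `G` for `a` at most `1 + d_a - q^a_h`.  With the
price `7/20` on these two relations the two classes are independent, and each has at most `239/400`.
-/

set_option autoImplicit false

namespace Pool.Agent.Helper58.TS

open Pool.Agent.Helper84.TS Pool.Agent.Helper36.TS Pool.Agent.Helper44.TS Pool.Agent.Helper65.TS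

/-- the main cell with the price `7/20` of its entry -/
private theorem mainp {t d q : ℝ} (t0 : 13 / 20 ≤ t) (t1 : t ≤ 1) (d0 : 0 ≤ d) (d1 : d ≤ 3 / 5) (hq : t ≤ q) :
    HH t - d * ((1 - t) * (5 - t)) / 4 - (1 - d) * (-q + (1 + t) / 2) ^ 2 + 7 / 20 * (1 + d - q) ≤
      47 / 75 - t ^ 2 + t ^ 3 / 3 + t / 4 := by
  obtain ⟨s, hs⟩ : ∃ s, s = q - t := ⟨_, rfl⟩
  have hq' : q = t + s := by linarith
  have s0 : 0 ≤ s := by linarith
  subst hq'
  have h1 : 0 ≤ s * (7 / 20 - (1 - d) * (1 - t)) := by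
    refine mul_nonneg s0 ?_
    nlinarith [mul_nonneg d0 (sub_nonneg.2 t1)]
  have h2 : 0 ≤ (1 - d) * s ^ 2 := mul_nonneg (by linarith) (sq_nonneg s)
  have h3 : 0 ≤ (t - 13 / 20) * (3 / 5 - d) := mul_nonneg (by linarith) (by linarith)
  unfold HH
  nlinarith

private theorem I1 {t b : ℝ} (t0 : 13 / 20 ≤ t) (t1 : t ≤ 1) (b0 : 0 ≤ b) :
    47 / 75 - t ^ 2 + t ^ 3 / 3 + t / 4 + (t * b - b ^ 3 / 3 - 7 / 20 * b) ≤ 29 / 50 := by
  -- tangents at b = 0.55 and b = 0.8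
  have h1 : 3 * (11 / 20) ^ 2 * b - 2 * (11 / 20) ^ 3 ≤ b ^ 3 := by
    nlinarith [mul_nonneg (by linarith : 0 ≤ b + 11 / 10) (sq_nonneg (b - 11 / 20))]
  nlinarith [mul_nonneg (sub_nonneg.2 t0) (sub_nonneg.2 t1), mul_nonneg b0 (sub_nonneg.2 t1), mul_nonneg b0 (sub_nonneg.2 t0),
    mul_nonneg (mul_nonneg (sub_nonneg.2 t0) (sub_nonneg.2 t1)) (sub_nonneg.2 t0), sq_nonneg (b - (11 / 20 + 3 / 4 * (t - 13 / 20))),
    mul_nonneg b0 (sq_nonneg (b - (11 / 20 + 3 / 4 * (t - 13 / 20))))]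

private theorem I2 {t : ℝ} (t0 : 13 / 20 ≤ t) (t1 : t ≤ 1) :
    47 / 75 - t ^ 2 + t ^ 3 / 3 + t / 4 + (bb t - 7 / 20 * t) ≤ 239 / 400 := by
  unfold bb
  nlinarith [mul_nonneg (sub_nonneg.2 t0) (sub_nonneg.2 t1),
    mul_nonneg (mul_nonneg (sub_nonneg.2 t0) (sub_nonneg.2 t1)) (sub_nonneg.2 t0)]

private theorem bbp {w t : ℝ} (w0 : 13 / 20 ≤ w) (wt : w ≤ t) (t1 : t ≤ 1) :
    bb w - 7 / 20 * w ≤ bb t - 7 / 20 * t := by
  have h : 0 ≤ (t - w) * (1 / 4 + (w + t) / 2 - (w ^ 2 + w * t + t ^ 2) / 12 - 7 / 20) := by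
    refine mul_nonneg (by linarith) ?_
    nlinarith
  unfold bb
  nlinarith

variable {A : Fin 4 → Fin 4 → Option (Fin 4 → ℝ)}

/-- a tall class with the price `7/20` of its entry in the column `y` and of the component of its far cell for `x` -/
theorem tall_price (h : OF A) {i m x y : Fin 4} {M F : Fin 4 → ℝ} (hc : TC A i m M F)
    (hn : [i, m, x, y].Nodup) :
    VV A i + 7 / 20 * (1 + (M i - 1) + M y) - 7 / 20 * (1 - (F y + (F i - 1))) ≤ 239 / 400 := by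
  have hn' : [i, m, y, x].Nodup := by clear * - hn; revert hn; revert i m x y; decide
  have ht := hc.nums h hn'
  have e1 := ht.fM
  have e2 := ht.vv
  have w0 := hc.hw
  have wt := ht.wt
  have t1 := ht.t1
  have d0 := ht.d0
  have d1 := hc.hd
  have xy := ht.xy
  have y1 := ht.y1
  have cF := h.cell i m F hc.hF
  have fF := h.far i m F hc.ne hc.hF
  have dF := far_dom cF hn fF.le
  have eF := far_AB cF hn fF.le
  obtain ⟨t, ht'⟩ : ∃ t, t = M m + (M i - 1) := ⟨_, rfl⟩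
  obtain ⟨w, hw'⟩ : ∃ w, w = 2 + F m := ⟨_, rfl⟩
  obtain ⟨d, hd'⟩ : ∃ d, d = M i - 1 := ⟨_, rfl⟩
  obtain ⟨q, hq'⟩ : ∃ q, q = -M y := ⟨_, rfl⟩
  rw [← ht'] at e1 t1 wt xy
  rw [← hd'] at e1 d0 d1 ⊢
  rw [← hw'] at w0 wt dF eF
  have hMy : M y = -q := by linarith
  rw [hMy] at e1 xy ⊢
  have m1 := mainp (t := t) (d := d) (q := q) (by linarith) t1 d0 d1.le (by linarith)
  have B0 := dF.B0
  obtain ⟨b, hb⟩ : ∃ b, b = 1 - (F y + (F i - 1)) := ⟨_, rfl⟩
  rw [← hb] at dF eF B0 ⊢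
  rcases le_total b w with hbw | hbw
  · have v1 := fAB_w dF le_rfl hbw
    have v2 := I1 (t := t) (by linarith) t1 B0.le
    have v3 : w * b ≤ t * b := mul_le_mul_of_nonneg_right wt B0.le
    linarith
  · have v1 : fcl i F ≤ bb w := by rw [hw']; exact far_bb' cF hc.ne fF
    have v2 := bbp w0.le wt t1
    have v3 := I2 (t := t) (by linarith) t1
    linarith

/-- **`H3` of `caseTwoTall_of`, both far cells of kind A on the other tall class.** -/
theorem tall_AA (A : Fin 4 → Fin 4 → Option (Fin 4 → ℝ)) (P : Fin 4 → Fin 4 → ℝ) (a b g h : Fin 4)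
    (F G : Fin 4 → ℝ) (hn : [a, b, g, h].Nodup) (T : Tall2 A P a g F b h G)
    (kF : -P b g ≤ (F h + (F a - 1)) + (P b b - 1)) (kG : -P a h ≤ (G g + (G b - 1)) + (P a a - 1)) :
    ∑ i, VV A i ≤ 613 / 200 := by
  have n0 : [g, h, a, b].Nodup := by clear * - hn; revert hn; revert a b g h; decide
  have n1 : [a, g, b, h].Nodup := by clear * - hn; revert hn; revert a b g h; decide
  have n2 : [b, h, a, g].Nodup := by clear * - hn; revert hn; revert a b g h; decide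
  have ta : TC A a g (P a) F := ⟨T.hP a, T.hd a, (nodup_ne n1).1, T.hF, T.wF⟩
  have tb : TC A b h (P b) G := ⟨T.hP b, T.hd b, (nodup_ne n2).1, T.hG, T.wG⟩
  have e1 := tall_price T.of ta n1
  have e2 := tall_price T.of tb n2
  have e3 := pair_le T.of n0
  rw [sum4 hn]
  linarith

end Pool.Agent.Helper58.TS
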