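import Pool.Agent.Helper58.TS.TallAA
import Pool.Agent.Helper44.TS.Fourth2

/-!
# Two tall classes `F = (a; g)`, `G = (b; a)`

`F` is always of kind A on `b`.  With the price `7/20` on the component of `F` for `b` the two tall classes are independent;
the class `g` of the column of `F` is restricted by the row of `a`, and by `G`.
-/

set_option autoImplicit false

namespace Pool.Agent.Helper58.TS

open Pool.Agent.Helper84.TS Pool.Agent.Helper36.TS Pool.Agent.Helper44.TS Pool.Agent.Helper65.TS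

/-- the main cell with the price `7/20` of its entry -/
private theorem mainp {t d q : ℝ} (t0 : 13 / 20 ≤ t) (t1 : t ≤ 1) (d0 : 0 ≤ d) (d1 : d ≤ 3 / 5) (hq : t ≤ q) :
    HH t - d * ((1 - t) * (5 - t)) / 4 - (1 - d) * (-q + (1 + t) / 2) ^ 2 + 7 / 20 * (1 + d - q) ≤
      47 / 75 - t ^ 2 + t ^ 3 / 3 + t / 4 := by
  obtain ⟨s, hs⟩ : ∃ s, s = q - t := ⟨_, rfl⟩
  have hq' : q = t + s := by linarith
  have s0 : 0 ≤ s := by linarith
  subst hq'
  have h1 : 0 ≤ s * (7 / 20 - (1 - d) * (1 - t)) := by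
    refine mul_nonneg s0 ?_
    nlinarith [mul_nonneg d0 (sub_nonneg.2 t1)]
  have h2 : 0 ≤ (1 - d) * s ^ 2 := mul_nonneg (by linarith) (sq_nonneg s)
  have h3 : 0 ≤ (t - 13 / 20) * (3 / 5 - d) := mul_nonneg (by linarith) (by linarith)
  unfold HH
  nlinarith

private theorem tangent {b c : ℝ} (b0 : 0 ≤ b) (c0 : 0 ≤ c) : 3 * c ^ 2 * b - 2 * c ^ 3 ≤ b ^ 3 := by
  nlinarith [mul_nonneg (by linarith : 0 ≤ b + 2 * c) (sq_nonneg (b - c))]

/-- a-part -/
private theorem A1 {t b : ℝ} (t0 : 13 / 20 ≤ t) (t1 : t ≤ 1) (b0 : 0 ≤ b) :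
    HH t + (t * b - b ^ 3 / 3 - 7 / 20 * b) ≤ 239 / 500 - 9 / 25 * (t - 13 / 20) := by
  unfold HH
  obtain ⟨s, hs⟩ : ∃ s, s = t - 13 / 20 := ⟨_, rfl⟩
  have ht : t = s + 13 / 20 := by linarith
  have s0 : 0 ≤ s := by linarith
  have s1 : s ≤ 7 / 20 := by linarith
  subst ht
  have h1 := mul_nonneg (sub_nonneg.2 s1) (sub_nonneg.2 (tangent b0 (by norm_num : (0:ℝ) ≤ 137 / 250)))
  have h2 := mul_nonneg s0 (sub_nonneg.2 (tangent b0 (by norm_num : (0:ℝ) ≤ 8063 / 10000)))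
  nlinarith [mul_nonneg s0 (sub_nonneg.2 s1), mul_nonneg (mul_nonneg s0 (sub_nonneg.2 s1)) s0, mul_nonneg b0 s0,
    mul_nonneg b0 (sub_nonneg.2 s1)]

private theorem I1 {t b : ℝ} (t0 : 13 / 20 ≤ t) (t1 : t ≤ 1) (b0 : 0 ≤ b) (bt : b ≤ t) :
    47 / 75 - t ^ 2 + t ^ 3 / 3 + t / 4 + (t * b - b ^ 3 / 3 - 7 / 20 * b) ≤ 57 / 100 := by
  obtain ⟨s, hs⟩ : ∃ s, s = t - 13 / 20 := ⟨_, rfl⟩
  have ht : t = s + 13 / 20 := by linarith
  have s0 : 0 ≤ s := by linarith
  have s1 : s ≤ 7 / 20 := by linarith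
  subst ht
  have h1 := tangent b0 (by positivity : (0:ℝ) ≤ 11 / 20 + 7 / 10 * s)
  have h2 : 0 ≤ (13 / 20 + s - b) * (s * (7 / 20 - s)) := mul_nonneg (by linarith) (mul_nonneg s0 (by linarith))
  nlinarith [mul_nonneg s0 (sub_nonneg.2 s1), mul_nonneg (mul_nonneg s0 (sub_nonneg.2 s1)) s0, mul_nonneg b0 s0,
    mul_nonneg b0 (sub_nonneg.2 s1), mul_nonneg (mul_nonneg b0 s0) (sub_nonneg.2 s1)]

private theorem B1 {t : ℝ} (t0 : 13 / 20 ≤ t) (t1 : t ≤ 1) :
    47 / 75 - t ^ 2 + t ^ 3 / 3 + t / 4 + bb t ≤ 263 / 300 := by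
  unfold bb
  nlinarith [mul_nonneg (sub_nonneg.2 t0) (sub_nonneg.2 t1),
    mul_nonneg (mul_nonneg (sub_nonneg.2 t0) (sub_nonneg.2 t1)) (sub_nonneg.2 t0)]

private theorem B2 {t y : ℝ} (t0 : 13 / 20 ≤ t) (t1 : t ≤ 1) (y0 : 13 / 20 ≤ y) (y1 : y ≤ 1) :
    47 / 75 - t ^ 2 + t ^ 3 / 3 + t / 4 + y * bb t ≤ 263 / 300 - 27 / 50 * (1 - y) := by
  unfold bb
  nlinarith [mul_nonneg (sub_nonneg.2 t0) (sub_nonneg.2 t1), mul_nonneg (sub_nonneg.2 t0) (sub_nonneg.2 y1),
    mul_nonneg (mul_nonneg (sub_nonneg.2 t0) (sub_nonneg.2 t1)) (sub_nonneg.2 t0), mul_nonneg (sub_nonneg.2 t1) (sub_nonneg.2 y1),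
    mul_nonneg (mul_nonneg (sub_nonneg.2 t0) (sub_nonneg.2 t1)) (sub_nonneg.2 y1), mul_nonneg (sub_nonneg.2 t1) (sub_nonneg.2 y0),
    mul_nonneg (mul_nonneg (sub_nonneg.2 t0) (sub_nonneg.2 t1)) (sub_nonneg.2 y0)]

/-- total (i) -/
private theorem Ei {t d e : ℝ} (t0 : 13 / 20 ≤ t) (t1 : t ≤ 1) (d0 : 0 ≤ d) (d1 : d ≤ 3 / 5) (e0 : 0 ≤ e) :
    239 / 500 - 9 / 25 * (t - 13 / 20) - d * ((1 - t) * (5 - t)) / 4 + 57 / 100 + 7 / 20 * (d + e) + 3 / 5 * (187 / 100)
      + 2 / 5 * (2 - 5 / 4 * e) ≤ 613 / 200 := by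
  nlinarith [mul_nonneg (sub_nonneg.2 t0) (sub_nonneg.2 t1), mul_nonneg d0 (sub_nonneg.2 t1), mul_nonneg (sub_nonneg.2 d1) (sub_nonneg.2 t1),
    mul_nonneg d0 (sub_nonneg.2 t0), mul_nonneg (sub_nonneg.2 d1) (sub_nonneg.2 t0), mul_nonneg (mul_nonneg (sub_nonneg.2 t0) (sub_nonneg.2 t1)) d0,
    mul_nonneg (mul_nonneg (sub_nonneg.2 t0) (sub_nonneg.2 t1)) (sub_nonneg.2 d1)]

private theorem Eii {t d : ℝ} (t0 : 13 / 20 ≤ t) (t1 : t ≤ 1) (d0 : 0 ≤ d) (d1 : d ≤ 3 / 5) :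
    239 / 500 - 9 / 25 * (t - 13 / 20) - d * ((1 - t) * (5 - t)) / 4 + 57 / 100 + 7 / 20 * (1 + d - t) + 1
      + (11 / 12 - (t - d) / 4) ≤ 613 / 200 := by
  nlinarith [mul_nonneg (sub_nonneg.2 t0) (sub_nonneg.2 t1), mul_nonneg d0 (sub_nonneg.2 t1), mul_nonneg (sub_nonneg.2 d1) (sub_nonneg.2 t1),
    mul_nonneg d0 (sub_nonneg.2 t0), mul_nonneg (sub_nonneg.2 d1) (sub_nonneg.2 t0), mul_nonneg (mul_nonneg (sub_nonneg.2 t0) (sub_nonneg.2 t1)) d0,
    mul_nonneg (mul_nonneg (sub_nonneg.2 t0) (sub_nonneg.2 t1)) (sub_nonneg.2 d1)]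

/-- total (B*) -/
private theorem EB {t d s : ℝ} (t0 : 13 / 20 ≤ t) (t1 : t ≤ 1) (d0 : 0 ≤ d) (d1 : d ≤ 3 / 5) (hs : 13 / 20 - d ≤ s) (s1 : s ≤ 3 / 4) :
    239 / 500 - 9 / 25 * (t - 13 / 20) - d * ((1 - t) * (5 - t)) / 4 + 263 / 300 + 1
      + (11 / 12 - s / 4 - s ^ 2 / 4 + s ^ 3 / 4) - 7 / 40 * (1 - s) + 49 / 1600 ≤ 76 / 25 + 1 / 100 := by
  have h1 : 11 / 12 - s / 4 - s ^ 2 / 4 + s ^ 3 / 4 - 7 / 40 * (1 - s) ≤
      11 / 12 - (13 / 20 - d) / 4 - (13 / 20 - d) ^ 2 / 4 + (13 / 20 - d) ^ 3 / 4 - 7 / 40 * (1 - (13 / 20 - d)) := by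
    obtain ⟨r, hr⟩ : ∃ r, r = 13 / 20 - d := ⟨_, rfl⟩
    rw [← hr] at hs ⊢
    have r0 : 0 ≤ r := by linarith
    have r1 : r ≤ 13 / 20 := by linarith
    have s0 : 0 ≤ s := by linarith
    have : 0 ≤ (s - r) * (3 / 40 + (s + r) / 4 - (s ^ 2 + s * r + r ^ 2) / 4) := by
      refine mul_nonneg (by linarith) ?_
      nlinarith [mul_nonneg r0 (sub_nonneg.2 s1), mul_nonneg s0 (sub_nonneg.2 s1), mul_nonneg r0 (sub_nonneg.2 r1), mul_nonneg s0 (sub_nonneg.2 r1)]
    nlinarith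
  nlinarith [mul_nonneg (sub_nonneg.2 t0) (sub_nonneg.2 t1), mul_nonneg d0 (sub_nonneg.2 t1), mul_nonneg (sub_nonneg.2 d1) (sub_nonneg.2 t1),
    mul_nonneg d0 (sub_nonneg.2 t0), mul_nonneg (sub_nonneg.2 d1) (sub_nonneg.2 t0), mul_nonneg (mul_nonneg (sub_nonneg.2 t0) (sub_nonneg.2 t1)) d0,
    mul_nonneg (mul_nonneg (sub_nonneg.2 t0) (sub_nonneg.2 t1)) (sub_nonneg.2 d1), mul_nonneg d0 (sub_nonneg.2 d1), mul_nonneg (mul_nonneg d0 (sub_nonneg.2 d1)) d0]

/-! ### the volume of a far cell -/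

private theorem fAB_ge {w A B : ℝ} (h : Dom w A B) (hB : w ≤ B) :
    fAB w A B - 7 / 20 * B ≤ w * w - w ^ 3 / 3 - 7 / 20 * w := by
  have w0 := h.w0
  have w1 := h.w1
  have hi := h.hi
  rcases fAB_cases h with ⟨a, b, e⟩ | ⟨a, b, e⟩ | ⟨a, b, e⟩ | ⟨a, b, e⟩
  · rw [e]
    obtain ⟨r, hr⟩ : ∃ r, r = B - w := ⟨_, rfl⟩
    have hB' : B = w + r := by linarith
    have r0 : 0 ≤ r := by linarith
    have hA : A ≤ 1 - r := by linarith
    have h1 : w * A * B ≤ w * (1 - r) * B := by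
      have := mul_le_mul_of_nonneg_left hA w0.le
      exact mul_le_mul_of_nonneg_right this h.B0.le
    have h2 : 0 ≤ r * (7 / 20 - (w - w * w) + w * r) := by
      refine mul_nonneg r0 ?_
      nlinarith [sq_nonneg (w - 1 / 2), mul_nonneg w0.le r0]
    rw [hB'] at h1 ⊢
    nlinarith
  · -- B ≤ w, hence B = w
    have hBw : B = w := le_antisymm a hB
    rw [e, hBw]
    have h1 : w * w * (A + w - w) ≤ w * w * 1 := by
      refine mul_le_mul_of_nonneg_left (by linarith) (mul_nonneg w0.le w0.le)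
    linarith
  · rw [e]
    have h1 : w * A * (A + B - w) ≤ w * A * 1 :=
      mul_le_mul_of_nonneg_left (by linarith) (mul_nonneg w0.le h.A0.le)
    have h2 : w * A - A ^ 3 / 3 ≤ w * w - w ^ 3 / 3 := by
      have : 0 ≤ (w - A) * (w - (w ^ 2 + w * A + A ^ 2) / 3) := by
        refine mul_nonneg (by linarith) ?_
        have := h.A0
        nlinarith [mul_nonneg w0.le (sub_nonneg.2 w1), mul_nonneg h.A0.le (sub_nonneg.2 w1), mul_nonneg h.A0.le (sub_nonneg.2 a),
          mul_nonneg w0.le (sub_nonneg.2 a)]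
      nlinarith
    linarith
  · have hBw : B = w := le_antisymm b hB
    rw [e, hBw]
    have e1 : A + w - w = A := by ring
    rw [e1]
    have h2 : A * A * w - A ^ 3 / 3 ≤ w * w - w ^ 3 / 3 := by
      have h3 : A * A * w ≤ w * A := by
        have : 0 ≤ w * A * (1 - A) := mul_nonneg (mul_nonneg w0.le h.A0.le) (by linarith)
        nlinarith
      have : 0 ≤ (w - A) * (w - (w ^ 2 + w * A + A ^ 2) / 3) := by
        refine mul_nonneg (by linarith) ?_
        have := h.A0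
        nlinarith [mul_nonneg w0.le (sub_nonneg.2 w1), mul_nonneg h.A0.le (sub_nonneg.2 w1), mul_nonneg h.A0.le (sub_nonneg.2 a),
          mul_nonneg w0.le (sub_nonneg.2 a)]
      nlinarith
    linarith

private theorem bb23 {w : ℝ} (w0 : 0 ≤ w) (w1 : w ≤ 1) : 2 / 3 * w ^ 2 ≤ bb w := by
  unfold bb
  nlinarith [mul_nonneg w0 (sub_nonneg.2 w1), mul_nonneg (mul_nonneg w0 (sub_nonneg.2 w1)) w0]

/-- `f ≤ (1 - d) bb w` -/
theorem fAB_lin {w A B : ℝ} (h : Dom w A B) : fAB w A B ≤ (A + B - w) * bb w := by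
  have w0 := h.w0
  have w1 := h.w1
  have hi := h.hi
  have lo := h.lo
  have hbb := bb23 w0.le w1
  have side : ∀ {X s : ℝ}, 0 < X → X ≤ w → X ≤ s → s ≤ 1 → w * X * s - X ^ 3 / 3 ≤ s * bb w := by
    intro X s X0 Xw Xs s1
    rcases le_total (w * X) (bb w) with hc | hc
    · have h1 := mul_le_mul_of_nonneg_right hc (X0.le.trans Xs)
      have h2 : 0 < X ^ 3 := by positivity
      nlinarith
    · have h1 := mul_nonneg (sub_nonneg.2 hc) (sub_nonneg.2 s1)
      have h2 : w * X - X ^ 3 / 3 ≤ w * w - w ^ 3 / 3 := by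
        have : 0 ≤ (w - X) * (w - (w ^ 2 + w * X + X ^ 2) / 3) := by
          refine mul_nonneg (by linarith) ?_
          nlinarith [mul_nonneg w0.le (sub_nonneg.2 w1), mul_nonneg X0.le (sub_nonneg.2 w1), mul_nonneg X0.le (sub_nonneg.2 Xw),
            mul_nonneg w0.le (sub_nonneg.2 Xw)]
        nlinarith
      have h3 : w * w - w ^ 3 / 3 ≤ bb w := by
        unfold bb
        nlinarith [mul_nonneg w0.le (sq_nonneg (1 - w))]
      nlinarith
  rcases fAB_cases h with ⟨a, b, e⟩ | ⟨a, b, e⟩ | ⟨a, b, e⟩ | ⟨a, b, e⟩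
  · rw [e]
    obtain ⟨s, hs⟩ : ∃ s, s = A + B - w := ⟨_, rfl⟩
    rw [← hs]
    have h1 : A * B ≤ (w + s) ^ 2 / 4 := by rw [hs]; nlinarith [sq_nonneg (A - B)]
    have h2 := mul_le_mul_of_nonneg_left h1 w0.le
    have s1 : s ≤ 1 := by linarith
    have s0 : 0 ≤ s := by linarith
    unfold bb
    nlinarith [mul_nonneg w0.le (mul_nonneg (sq_nonneg w) (sub_nonneg.2 s1)), mul_nonneg w0.le (mul_nonneg s0 (sub_nonneg.2 s1))]
  · rw [e]
    have := side (X := B) (s := A + B - w) h.B0 a (by linarith) (by linarith)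
    linarith
  · rw [e]
    have := side (X := A) (s := A + B - w) h.A0 a (by linarith) (by linarith)
    linarith
  · rw [e]
    obtain ⟨s, hs⟩ : ∃ s, s = A + B - w := ⟨_, rfl⟩
    rw [← hs]
    have s0 : 0 < s := by linarith
    have sw : s ≤ w := by linarith
    have h1 : A * B ≤ (w + s) ^ 2 / 4 := by rw [hs]; nlinarith [sq_nonneg (A - B)]
    have h2 : A * B - s ^ 2 / 3 ≤ bb w := by
      nlinarith [mul_nonneg s0.le (sub_nonneg.2 sw), mul_nonneg w0.le (sub_nonneg.2 sw)]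
    have h3 := mul_le_mul_of_nonneg_left h2 s0.le
    nlinarith


/-- `(max (d - t) 0)^3 ≤ d^3 (1 - t)` for `d ≤ 1` -/
private theorem cub {t d : ℝ} (t0 : 0 ≤ t) (t1 : t ≤ 1) (d0 : 0 ≤ d) (d1 : d ≤ 1) :
    (max (d - t) 0) ^ 3 ≤ d ^ 3 * (1 - t) := by
  rcases le_total d t with h | h
  · rw [max_eq_right (by linarith)]
    have : 0 ≤ d ^ 3 * (1 - t) := mul_nonneg (by positivity) (by linarith)
    simpa using this
  · rw [max_eq_left (by linarith)]
    have h1 : d - t ≤ d * (1 - t) := by nlinarith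
    have h2 : (d - t) ^ 2 ≤ d ^ 2 := pow_le_pow_left₀ (by linarith) (by linarith) 2
    have h3 : (d - t) ^ 2 * (d - t) ≤ d ^ 2 * (d * (1 - t)) :=
      mul_le_mul h2 h1 (by linarith) (by positivity)
    nlinarith

private theorem gd {t d S : ℝ} (t0 : 0 ≤ t) (t1 : t ≤ 1) (d0 : 0 ≤ d) (d1 : d ≤ 3 / 5)
    (hS : S ≤ 11 / 12 - t / 4 - t ^ 2 / 4 + t ^ 3 / 4 - d * ((1 - t) * (5 - t)) / 4 + (max (d - t) 0) ^ 3 / 3)
    (hV : 19 / 27 < S) : d ≤ 6 / 25 ∧ t ≤ 3 / 4 := by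
  have hc := cub t0 t1 d0 (by linarith)
  have h3 : d ^ 3 * (1 - t) ≤ 9 / 25 * (d * (1 - t)) := by
    have : 0 ≤ d * (1 - t) * (9 / 25 - d ^ 2) :=
      mul_nonneg (mul_nonneg d0 (by linarith)) (by nlinarith)
    nlinarith
  constructor
  · by_contra h
    push Not at h
    have h1 : 0 ≤ (d - 6 / 25) * ((1 - t) * ((5 - t) / 4 - 3 / 25)) :=
      mul_nonneg (by linarith) (mul_nonneg (by linarith) (by linarith))
    nlinarith [mul_nonneg t0 (sub_nonneg.2 t1), mul_nonneg (mul_nonneg t0 (sub_nonneg.2 t1)) t0]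
  · by_contra h
    push Not at h
    have h1 : 0 ≤ d * ((1 - t) * ((5 - t) / 4 - 3 / 25)) :=
      mul_nonneg d0 (mul_nonneg (by linarith) (by linarith))
    have h2 : 0 ≤ (t - 3 / 4) * (1 - t) := mul_nonneg (by linarith) (by linarith)
    nlinarith [mul_nonneg h2 t0]

private theorem ga {t d : ℝ} (t0 : 0 ≤ t) (t1 : t ≤ 3 / 4) (d0 : 0 ≤ d) (d1 : d ≤ 6 / 25) :
    11 / 12 - t / 4 - t ^ 2 / 4 + t ^ 3 / 4 - d * ((1 - t) * (5 - t)) / 4 + (max (d - t) 0) ^ 3 / 3 ≤
      1 - 5 / 4 * d := by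
  have hc := cub t0 (by linarith) d0 (by linarith)
  have h3 : d ^ 3 * (1 - t) ≤ 6 / 25 * (6 / 25) * d := by
    have h4 : 0 ≤ d * (6 / 25 * (6 / 25) - d ^ 2) := mul_nonneg d0 (by nlinarith)
    have h5 : 0 ≤ d ^ 3 * t := by positivity
    nlinarith
  nlinarith [mul_nonneg t0 (sub_nonneg.2 t1), mul_nonneg (mul_nonneg t0 (sub_nonneg.2 t1)) t0, mul_nonneg t0 (sub_nonneg.2 d1),
    mul_nonneg (mul_nonneg t0 t0) d0]

private theorem gb {t d : ℝ} (t0 : 0 ≤ t) (t1 : t ≤ 3 / 4) (d0 : 0 ≤ d) (d1 : d ≤ 6 / 25) :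
    11 / 12 - t / 4 - t ^ 2 / 4 + t ^ 3 / 4 - d * ((1 - t) * (5 - t)) / 4 + (max (d - t) 0) ^ 3 / 3 ≤
      11 / 12 - t / 4 - 7 / 20 * d := by
  have hc := cub t0 (by linarith) d0 (by linarith)
  have h3 : d ^ 3 * (1 - t) ≤ 6 / 25 * (6 / 25) * d := by
    have h4 : 0 ≤ d * (6 / 25 * (6 / 25) - d ^ 2) := mul_nonneg d0 (by nlinarith)
    have h5 : 0 ≤ d ^ 3 * t := by positivity
    nlinarith
  have h6 : 0 ≤ t ^ 2 * (3 / 4 - t) := mul_nonneg (sq_nonneg t) (by linarith)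
  nlinarith [mul_nonneg t0 (sub_nonneg.2 t1), mul_nonneg (mul_nonneg t0 (sub_nonneg.2 t1)) d0, mul_nonneg t0 (sub_nonneg.2 d1),
    mul_nonneg (mul_nonneg t0 t0) d0, mul_nonneg (mul_nonneg t0 t0) (sub_nonneg.2 d1), sq_nonneg (t - 3 / 5 )]

private theorem gc {t d y : ℝ} (t0 : 0 ≤ t) (t1 : t ≤ 3 / 4) (d0 : 0 ≤ d) (d1 : d ≤ 6 / 25) (y0 : t ≤ y) (y1 : y ≤ 1) :
    -(d * ((1 - t) * (5 - t)) / 4) - (1 - d) * (-y + (1 + t) / 2) ^ 2 + (max (d - t) 0) ^ 3 / 3 - 7 / 20 * (1 - y) ≤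
      -(7 / 40 * (1 - t)) + 49 / 1600 := by
  have hc := cub t0 (by linarith) d0 (by linarith)
  have h3 : d ^ 3 * (1 - t) ≤ d * (1 - t) := by
    have h4 : 0 ≤ d * (1 - t) * (1 - d ^ 2) := mul_nonneg (mul_nonneg d0 (by linarith)) (by nlinarith)
    nlinarith
  obtain ⟨u, hu⟩ : ∃ u, u = y - (1 + t) / 2 := ⟨_, rfl⟩
  have hy : y = u + (1 + t) / 2 := by linarith
  subst hy
  have hu2 : u ^ 2 ≤ (1 - t) ^ 2 / 4 := by
    have a1 : u ≤ (1 - t) / 2 := by linarith
    have a2 : -((1 - t) / 2) ≤ u := by linarith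
    nlinarith
  have h5 : 0 ≤ d * ((1 - t) ^ 2 / 4 - u ^ 2) := mul_nonneg d0 (by linarith)
  have h6 : 0 ≤ d * (1 - t) := mul_nonneg d0 (by linarith)
  nlinarith [sq_nonneg (u - 7 / 40)]
variable {A : Fin 4 → Fin 4 → Option (Fin 4 → ℝ)}

/-! ### the class `g` -/

/-- a class with a low entry in the column `m` (`t = d - q ≥ 0`) -/
theorem cls_t (h : OF A) {i m p q : Fin 4} {N : Fin 4 → ℝ} (hN : A i i = some N)
    (hn : [i, m, p, q].Nodup) (ht : 0 ≤ N m + (N i - 1)) :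
    VV A i ≤ 19 / 27 ∨ VV A i ≤ 11 / 12 - (N m + (N i - 1)) / 4 - (N m + (N i - 1)) ^ 2 / 4
      + (N m + (N i - 1)) ^ 3 / 4 - (N i - 1) * ((1 - (N m + (N i - 1))) * (5 - (N m + (N i - 1)))) / 4
      - (1 - (N i - 1)) * (N p + (1 + (N m + (N i - 1))) / 2) ^ 2
      + (max ((N i - 1) - (N m + (N i - 1))) 0) ^ 3 / 3 := by
  have n := nodup_ne hn
  have cN := h.cell i i N hN
  have mN := h.main i N hN
  have aN := cell_lin cN hn
  have eN := main_ent hn mN
  have fN := main_f hn mN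
  obtain ⟨t, ht'⟩ : ∃ t, t = N m + (N i - 1) := ⟨_, rfl⟩
  obtain ⟨d, hd'⟩ : ∃ d, d = N i - 1 := ⟨_, rfl⟩
  have t1 : t ≤ 1 := by linarith
  have d0 : 0 ≤ d := by linarith
  have d1 : d ≤ 1 := by linarith
  rw [← ht'] at ht
  have hp0 : N p ≤ 0 := by linarith
  have hq0 : N q ≤ 0 := by linarith
  rw [max_eq_right hp0, max_eq_right hq0, ← hd'] at fN
  have hNm : N m = t - d := by linarith
  have hNq : N q = -(1 + t + N p) := by linarith
  -- the main cell
  have main : fcl i N = HH t - d * ((1 - t) * (5 - t)) / 4 - (1 - d) * (N p + (1 + t) / 2) ^ 2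
      + (max (d - t) 0) ^ 3 / 3 := by
    rw [fN, hNm, hNq]
    unfold HH
    rcases le_total t d with h1 | h1
    · rw [max_eq_right (by linarith : t - d ≤ 0), max_eq_left (by linarith : 0 ≤ d - t)]
      ring
    · rw [max_eq_left (by linarith : 0 ≤ t - d), max_eq_right (by linarith : d - t ≤ 0)]
      ring
  have hbb : HH t + bb t = 11 / 12 - t / 4 - t ^ 2 / 4 + t ^ 3 / 4 := by unfold HH bb; ring
  have bb0 : 0 ≤ bb t := by
    have := bb23 ht t1
    have := sq_nonneg t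
    linarith
  rw [← ht', ← hd']
  rcases vv_split h hN with h1 | h1 | ⟨j, F, hj, hF, h1⟩
  · exact Or.inl h1
  · right
    linarith
  · have cF := h.cell i j F hF
    have fF := h.far i j F hj hF
    have ow := own' cN cF (sep' h hj.symm hN hF) hj mN fF
    have vF := far_bb' cF hj fF
    have wF := far_W cF hj fF
    have other : ∀ {s : ℝ}, 0 ≤ s → 2 + F j ≤ s → s + t ≤ d → fcl i F ≤ bb s →
        fcl i N ≤ 2 / 3 - d ^ 2 + d ^ 3 / 3 → VV A i ≤ 19 / 27 := by
      intro s s0 _ std hbs hNN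
      have h2 : bb s ≤ bb d := bb_mono s0 (by linarith) d1
      have h3 : 0 ≤ (4 / 3 - d) * (d - 1 / 3) ^ 2 := mul_nonneg (by linarith) (sq_nonneg _)
      unfold bb at h2 hbs
      linarith
    rcases mem4 hn j with rfl | rfl | rfl | rfl
    · exact absurd rfl hj
    · right
      have h2 : bb (2 + F j) ≤ bb t := bb_mono (by linarith) (by linarith) t1
      linarith
    · -- far cell in the column `p`
      left
      refine other (s := N j + d) (by linarith) (by linarith) (by linarith) (vF.trans (bb_mono (by linarith) (by linarith) (by linarith))) ?_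
      rw [fN, hNm, max_eq_right (by linarith : t - d ≤ 0)]
      have h2 : (1 - d) ^ 2 ≤ (N q) ^ 2 := by
        rw [← neg_sq (N q)]
        exact pow_le_pow_left₀ (by linarith) (by linarith) 2
      have h3 : 0 ≤ (1 - d) * ((N q) ^ 2 - (1 - d) ^ 2) := mul_nonneg (by linarith) (by linarith)
      have h4 : 0 ≤ (1 - d) * ((t - d) ^ 2 + (N j) ^ 2) := mul_nonneg (by linarith) (by positivity)
      linarith
    · left
      refine other (s := N j + d) (by linarith) (by linarith) (by linarith) (vF.trans (bb_mono (by linarith) (by linarith) (by linarith))) ?_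
      rw [fN, hNm, max_eq_right (by linarith : t - d ≤ 0)]
      have h2 : (1 - d) ^ 2 ≤ (N p) ^ 2 := by
        rw [← neg_sq (N p)]
        exact pow_le_pow_left₀ (by linarith) (by linarith) 2
      have h3 : 0 ≤ (1 - d) * ((N p) ^ 2 - (1 - d) ^ 2) := mul_nonneg (by linarith) (by linarith)
      have h4 : 0 ≤ (1 - d) * ((t - d) ^ 2 + (N j) ^ 2) := mul_nonneg (by linarith) (by positivity)
      linarith

/-- the class `g` is below `1 - 5/4 d` or below `19/27` -/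
theorem cls_a (h : OF A) {i : Fin 4} {N : Fin 4 → ℝ} (hN : A i i = some N) (hd : N i - 1 < 3 / 5)
    (hV : 19 / 27 < VV A i) : VV A i ≤ 1 - 5 / 4 * (N i - 1) := by
  have cN := h.cell i i N hN
  have mN := h.main i N hN
  have d0 : 0 ≤ N i - 1 := by
    obtain ⟨j, k, l, hn⟩ := exists_rest3 i
    have := cell_lin cN hn
    linarith
  rcases vv_split h hN with h1 | h1 | ⟨j, F, hj, hF, h1⟩
  · linarith
  · have := main_d cN mN
    rw [h1]
    nlinarith
  · obtain ⟨k, l, hn⟩ := exists_rest2 hj.symm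
    have aN := cell_lin cN hn
    have eN := main_ent hn mN
    have cF := h.cell i j F hF
    have fF := h.far i j F hj hF
    have ow := own' cN cF (sep' h hj.symm hN hF) hj mN fF
    have wF := far_W cF hj fF
    have ht : 0 ≤ N j + (N i - 1) := by linarith
    rcases cls_t h hN hn ht with h2 | h2
    · linarith
    · have sq : 0 ≤ (1 - (N i - 1)) * (N k + (1 + (N j + (N i - 1))) / 2) ^ 2 :=
        mul_nonneg (by linarith) (sq_nonneg _)
      obtain ⟨e1, e2⟩ := gd (t := N j + (N i - 1)) (d := N i - 1) (S := VV A i) ht (by linarith) d0 hd.le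
        (by linarith) hV
      have := ga ht e2 d0 e1
      linarith

/-- the class `g` with a low entry in the column `m` -/
theorem cls_b (h : OF A) {i m p q : Fin 4} {N : Fin 4 → ℝ} (hN : A i i = some N) (hd : N i - 1 < 3 / 5)
    (hV : 19 / 27 < VV A i) (hn : [i, m, p, q].Nodup) (ht : 0 ≤ N m + (N i - 1)) :
    N i - 1 ≤ 6 / 25 ∧ N m + (N i - 1) ≤ 3 / 4 ∧
      VV A i ≤ 11 / 12 - (N m + (N i - 1)) / 4 - 7 / 20 * (N i - 1) ∧
      VV A i - 7 / 20 * (1 - (-N p)) ≤ 11 / 12 - (N m + (N i - 1)) / 4 - (N m + (N i - 1)) ^ 2 / 4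
        + (N m + (N i - 1)) ^ 3 / 4 - 7 / 40 * (1 - (N m + (N i - 1))) + 49 / 1600 := by
  have cN := h.cell i i N hN
  have mN := h.main i N hN
  have aN := cell_lin cN hn
  have eN := main_ent hn mN
  have d0 : 0 ≤ N i - 1 := by linarith
  rcases cls_t h hN hn ht with h2 | h2
  · linarith
  · have sq : 0 ≤ (1 - (N i - 1)) * (N p + (1 + (N m + (N i - 1))) / 2) ^ 2 :=
      mul_nonneg (by linarith) (sq_nonneg _)
    obtain ⟨e1, e2⟩ := gd (t := N m + (N i - 1)) (d := N i - 1) (S := VV A i) ht (by linarith) d0 hd.le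
      (by linarith) hV
    have e3 := gb ht e2 d0 e1
    have e4 := gc (y := -N p) ht e2 d0 e1 (by linarith) (by linarith)
    rw [neg_neg] at e4
    exact ⟨e1, e2, by linarith, by linarith⟩

/-! ### the tall classes -/

/-- the class `a` -/
theorem tall_a (h : OF A) {i m x y : Fin 4} {M F : Fin 4 → ℝ} (hc : TC A i m M F)
    (hn : [i, m, x, y].Nodup) :
    VV A i - 7 / 20 * (1 - (F y + (F i - 1))) ≤ 239 / 500 - 9 / 25 * ((M m + (M i - 1)) - 13 / 20)
      - (M i - 1) * ((1 - (M m + (M i - 1))) * (5 - (M m + (M i - 1)))) / 4 := by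
  have ht := hc.nums h hn
  have e1 := ht.fM
  have e2 := ht.vv
  have w0 := hc.hw
  have wt := ht.wt
  have t1 := ht.t1
  have d1 := hc.hd
  have cF := h.cell i m F hc.hF
  have fF := h.far i m F hc.ne hc.hF
  have dF := far_dom cF hn fF.le
  have eF := far_AB cF hn fF.le
  have sq : 0 ≤ (1 - (M i - 1)) * (M x + (1 + (M m + (M i - 1))) / 2) ^ 2 :=
    mul_nonneg (by linarith) (sq_nonneg _)
  obtain ⟨t, ht'⟩ : ∃ t, t = M m + (M i - 1) := ⟨_, rfl⟩
  obtain ⟨w, hw'⟩ : ∃ w, w = 2 + F m := ⟨_, rfl⟩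
  rw [← ht'] at e1 t1 wt sq ⊢
  rw [← hw'] at w0 wt dF eF
  have B0 := dF.B0
  have t0 : 13 / 20 ≤ t := by linarith
  obtain ⟨b, hb⟩ : ∃ b, b = 1 - (F y + (F i - 1)) := ⟨_, rfl⟩
  rw [← hb] at dF eF B0 ⊢
  rcases le_total b w with hbw | hbw
  · have v1 := fAB_w dF le_rfl hbw
    have v2 := A1 (t := t) t0 t1 B0.le
    have v3 : w * b ≤ t * b := mul_le_mul_of_nonneg_right wt B0.le
    linarith
  · have v1 := fAB_ge dF hbw
    have v2 := A1 (t := t) (b := w) t0 t1 (by linarith)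
    have v3 : w * w ≤ t * w := mul_le_mul_of_nonneg_right wt (by linarith)
    linarith

/-- the class `b`: three bounds -/
theorem tall_b (h : OF A) {i m x y : Fin 4} {M F : Fin 4 → ℝ} (hc : TC A i m M F)
    (hn : [i, m, x, y].Nodup) :
    VV A i + 7 / 20 * (1 + (M i - 1) + M x) ≤ 57 / 100 + 7 / 20 * (1 - (F y + (F i - 1))) ∧
    VV A i + 7 / 20 * (1 + (M i - 1) + M x) ≤ 263 / 300 ∧
    ∀ z : ℝ, 13 / 20 ≤ z → z ≤ 1 → 1 - (F i - 1) ≤ z →
      VV A i + 7 / 20 * (1 + (M i - 1) + M x) ≤ 263 / 300 - 27 / 50 * (1 - z) := by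
  have ht := hc.nums h hn
  have e1 := ht.fM
  have e2 := ht.vv
  have w0 := hc.hw
  have wt := ht.wt
  have t1 := ht.t1
  have d0 := ht.d0
  have d1 := hc.hd
  have xy := ht.xy
  have y1 := ht.y1
  have cF := h.cell i m F hc.hF
  have fF := h.far i m F hc.ne hc.hF
  have dF := far_dom cF hn fF.le
  have eF := far_AB cF hn fF.le
  have sF := (cell_lin cF hn).1
  have bF := far_bb' cF hc.ne fF
  obtain ⟨t, ht'⟩ : ∃ t, t = M m + (M i - 1) := ⟨_, rfl⟩
  obtain ⟨w, hw'⟩ : ∃ w, w = 2 + F m := ⟨_, rfl⟩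
  obtain ⟨d, hd'⟩ : ∃ d, d = M i - 1 := ⟨_, rfl⟩
  obtain ⟨q, hq'⟩ : ∃ q, q = -M x := ⟨_, rfl⟩
  rw [← ht'] at e1 t1 wt xy
  rw [← hd'] at e1 d0 d1 ⊢
  rw [← hw'] at w0 wt dF eF bF
  have hMx : M x = -q := by linarith
  rw [hMx] at e1 xy ⊢
  have t0 : 13 / 20 ≤ t := by linarith
  have m1 := mainp (t := t) (d := d) (q := q) t0 t1 d0 d1.le (by linarith)
  have B0 := dF.B0
  have hbt := bb_mono (by linarith) wt t1
  refine ⟨?_, ?_, ?_⟩
  · obtain ⟨b, hb⟩ : ∃ b, b = 1 - (F y + (F i - 1)) := ⟨_, rfl⟩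
    rw [← hb] at dF eF B0 ⊢
    rcases le_total b w with hbw | hbw
    · have v1 := fAB_w dF le_rfl hbw
      have v2 := I1 (t := t) t0 t1 B0.le (hbw.trans wt)
      have v3 : w * b ≤ t * b := mul_le_mul_of_nonneg_right wt B0.le
      linarith
    · have v1 := fAB_ge dF hbw
      have v2 := I1 (t := t) (b := w) t0 t1 (by linarith) wt
      have v3 : w * w ≤ t * w := mul_le_mul_of_nonneg_right wt (by linarith)
      linarith
  · have := B1 t0 t1
    linarith
  · intro z z0 z1 hz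
    have v1 := fAB_lin dF
    have v2 : fcl i F ≤ z * bb t := by
      have hs : 1 - (F x + (F i - 1)) + (1 - (F y + (F i - 1))) - w ≤ z := by linarith
      have bw : 0 ≤ bb w := by
        have := bb23 (w := w) (by linarith) (by linarith)
        have := sq_nonneg w
        linarith
      calc fcl i F ≤ (1 - (F x + (F i - 1)) + (1 - (F y + (F i - 1))) - w) * bb w := by rw [eF]; exact v1
        _ ≤ z * bb w := mul_le_mul_of_nonneg_right hs bw
        _ ≤ z * bb t := mul_le_mul_of_nonneg_left hbt (by linarith)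
    have := B2 t0 t1 z0 z1
    linarith

/-- **`H2` of `caseTwoTall_of`.** -/
theorem tall_H2 (A : Fin 4 → Fin 4 → Option (Fin 4 → ℝ)) (P : Fin 4 → Fin 4 → ℝ) (a b g h : Fin 4)
    (F G : Fin 4 → ℝ) (hn : [a, b, g, h].Nodup) (T : Tall2 A P a g F b a G) :
    ∑ i, VV A i ≤ 613 / 200 := by
  have ngh : [g, h, a, b].Nodup := by clear * - hn; revert hn; revert a b g h; decide
  have na : [a, g, b, h].Nodup := by clear * - hn; revert hn; revert a b g h; decide
  have nb : [b, a, g, h].Nodup := by clear * - hn; revert hn; revert a b g h; decide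
  have nag : [a, g, b, h].Nodup := na
  have nghb : [g, h, b, a].Nodup := by clear * - hn; revert hn; revert a b g h; decide
  have ngb : [g, b, h, a].Nodup := by clear * - hn; revert hn; revert a b g h; decide
  have O := T.of
  have hs : ∀ i, A i (id i) = some (P i) := T.hP
  have ta : TC A a g (P a) F := ⟨T.hP a, T.hd a, (nodup_ne na).1, T.hF, T.wF⟩
  have tb : TC A b a (P b) G := ⟨T.hP b, T.hd b, (nodup_ne nb).1, T.hG, T.wG⟩
  have Na := ta.nums O na
  have Nb := tb.nums O nb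
  -- the kind of `F` on `b`
  have kF : -P b g ≤ (F h + (F a - 1)) + (P b b - 1) := by
    rcases capAB O hs T.hF na rfl with h1 | h1
    · exact h1
    · exfalso
      have := Nb.xy
      have := Nb.wt
      have := tb.hw
      have h4 := (cell_lin (O.cell a g F T.hF) na).2.2.1
      linarith [h1.1, T.hd b, Nb.x1]
  have va := tall_a O ta na
  obtain ⟨vb1, vb2, vb3⟩ := tall_b O tb nb
  have vh := vv_le_one O h
  have vgh := pair_le O ngh
  -- the row of `a` and the row of `g`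
  have sl := slk_nonneg O hs na
  have A0 := Na.t1
  have A1' := Na.wt
  have A2 := ta.hw
  have A3 := Na.d0
  have A4 := Na.x1
  have A5 := Na.y1
  have A6 := Na.xy
  have A7 := T.hd a
  have cg := O.cell g g (P g) (T.hP g)
  have mg := O.main g (P g) (T.hP g)
  have lg := cell_lin cg ngh
  have eg := main_ent ngh mg
  have dg := T.hd g
  rw [sum4 hn]
  obtain ⟨t, ht⟩ : ∃ t, t = P a g + (P a a - 1) := ⟨_, rfl⟩
  obtain ⟨d, hd⟩ : ∃ d, d = P a a - 1 := ⟨_, rfl⟩
  rw [← ht] at va A0 A1' A6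
  rw [← hd] at va A3 A7
  have t0 : 13 / 20 ≤ t := by linarith
  have loss : 0 ≤ d * ((1 - t) * (5 - t)) := mul_nonneg A3 (mul_nonneg (by linarith) (by linarith))
  by_cases hVg : VV A g ≤ 19 / 27
  · linarith
  push Not at hVg
  have vg1 := cls_a O (T.hP g) dg hVg
  -- what follows from a low entry of `g`
  have low : ∀ {m p q : Fin 4}, [g, m, p, q].Nodup → 0 ≤ P g m + (P g g - 1) →
      P g g - 1 ≤ 6 / 25 ∧ P g m + (P g g - 1) ≤ 3 / 4 ∧
      VV A g ≤ 11 / 12 - (P g m + (P g g - 1)) / 4 - 7 / 20 * (P g g - 1) ∧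
      VV A g - 7 / 20 * (1 - (-P g p)) ≤ 11 / 12 - (P g m + (P g g - 1)) / 4 - (P g m + (P g g - 1)) ^ 2 / 4
        + (P g m + (P g g - 1)) ^ 3 / 4 - 7 / 40 * (1 - (P g m + (P g g - 1))) + 49 / 1600 :=
    fun hn' ht' => cls_b O (T.hP g) dg hVg hn' ht'
  have dg2 : P g g - 1 ≤ 6 / 25 := by linarith
  have qb : t ≤ -P a b := by linarith
  have qh : t ≤ -P a h := by linarith
  rcases capAB O hs T.hG nb rfl with kG | kG
  · -- `G` is of kind A on `g`
    by_cases hy : -P g b < t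
    · by_cases hz : -P g h < t
      · -- both entries of `g` are low
        have h1 : -P g b + -P g h ≤ d + (P g g - 1) := by
          unfold slk at sl
          rw [min_eq_right (by linarith : -P g b ≤ -P a b), min_eq_right (by linarith : -P g h ≤ -P a h)] at sl
          linarith
        have := Ei (t := t) (d := d) (e := P g g - 1) t0 A0 A3 A7.le (by linarith)
        linarith
      · push Not at hz
        have h1 : -P g b ≤ d + (P g g - 1) - t := by
          unfold slk at sl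
          have h2 : t ≤ min (-P a h) (-P g h) := le_min qh hz
          rcases le_total (-P g b) (-P a b) with h3 | h3
          · rw [min_eq_right h3] at sl
            linarith
          · rw [min_eq_left h3] at sl
            exfalso
            linarith
        have h4 := (low ngb (by linarith)).2.2.1
        have := Eii (t := t) (d := d) t0 A0 A3 A7.le
        linarith
    · push Not at hy
      have h1 : -P g h ≤ d + (P g g - 1) - t := by
        unfold slk at sl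
        have h2 : t ≤ min (-P a b) (-P g b) := le_min qb hy
        rcases le_total (-P g h) (-P a h) with h3 | h3
        · rw [min_eq_right h3] at sl
          linarith
        · rw [min_eq_left h3] at sl
          exfalso
          linarith
      have h4 := (low nghb (by linarith)).2.2.1
      have := Eii (t := t) (d := d) t0 A0 A3 A7.le
      linarith
  · -- `G` is of kind B on `g`
    obtain ⟨-, k2⟩ := kG
    by_cases hy : -P g b < 13 / 20
    · have := vb3 (13 / 20) le_rfl (by norm_num) (by linarith)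
      linarith
    · push Not at hy
      have h1 : -P g h ≤ d + (P g g - 1) - 13 / 20 := by
        unfold slk at sl
        have h2 : 13 / 20 ≤ min (-P a b) (-P g b) := le_min (by linarith) hy
        rcases le_total (-P g h) (-P a h) with h3 | h3
        · rw [min_eq_right h3] at sl
          linarith
        · rw [min_eq_left h3] at sl
          exfalso
          linarith
      have h4 := low nghb (by linarith)
      have h5 := vb3 (-P g b) hy (by linarith) k2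
      have h6 := EB (t := t) (d := d) (s := P g h + (P g g - 1)) t0 A0 A3 A7.le (by linarith) h4.2.1
      have h7 := h4.2.2.2
      linarith

end Pool.Agent.Helper58.TS
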