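import Pool.Agent.Helper44.TS.Tall
import Pool.Agent.Helper65.TS.Tall2

/-!
# Two tall classes whose far cells lie in the same column

`F = (a; g)` and `G = (b; g)` with `w > 13/20`: by the relation between `F` and `G` the two classes have total value at most
`239/200`, and any two classes have at most `187/100`.
-/

set_option autoImplicit false

namespace Pool.Agent.Helper58.TS

open Pool.Agent.Helper84.TS Pool.Agent.Helper36.TS Pool.Agent.Helper44.TS Pool.Agent.Helper65.TS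

private theorem c1 {p q X : ℝ} (p0 : 13 / 20 ≤ p) (pq : p ≤ q) (q1 : q ≤ 1) (X0 : 0 ≤ X) (Xq : X ≤ q) :
    HH p + HH q + p * X + q * (2 * q - X) ^ 2 / 4 - q ^ 3 / 4 ≤ 239 / 200 := by
  -- convex in X : the value is at most the chord
  have h1 : q * (2 * q - X) ^ 2 / 4 ≤ q ^ 3 - 3 / 4 * q ^ 2 * X := by
    have := mul_nonneg (mul_nonneg X0 (sub_nonneg.2 Xq)) (by linarith : 0 ≤ q)
    nlinarith
  -- X = 0 : HH p + HH q + 3/4 q^3 ; X = q : HH p + p q + HH q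
  have hp : HH p + p * X ≤ HH (13 / 20) + 13 / 20 * X := by
    unfold HH
    nlinarith [mul_nonneg (sub_nonneg.2 p0) (sub_nonneg.2 (pq.trans q1)), mul_nonneg (sub_nonneg.2 p0) X0,
      mul_nonneg (sub_nonneg.2 p0) (by linarith : 0 ≤ 1 - X), mul_nonneg (mul_nonneg (sub_nonneg.2 p0) (sub_nonneg.2 (pq.trans q1))) (sub_nonneg.2 p0)]
  have hq0 : 13 / 20 ≤ q := p0.trans pq
  have h2 : HH (13 / 20) + 13 / 20 * X + HH q + (q ^ 3 - 3 / 4 * q ^ 2 * X) - q ^ 3 / 4 ≤ 239 / 200 := by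
    unfold HH
    nlinarith [mul_nonneg (sub_nonneg.2 hq0) (sub_nonneg.2 q1), mul_nonneg X0 (sub_nonneg.2 Xq),
      mul_nonneg (mul_nonneg (sub_nonneg.2 hq0) (sub_nonneg.2 q1)) X0, mul_nonneg (mul_nonneg (sub_nonneg.2 hq0) (sub_nonneg.2 q1)) (sub_nonneg.2 Xq),
      mul_nonneg (mul_nonneg (sub_nonneg.2 hq0) (sub_nonneg.2 q1)) (sub_nonneg.2 hq0)]
  linarith

private theorem HHl {q : ℝ} (q0 : 13 / 20 ≤ q) (q1 : q ≤ 1) : HH q ≤ 41 / 40 - q := by
  unfold HH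
  nlinarith [mul_nonneg (sub_nonneg.2 q0) (sub_nonneg.2 q1), mul_nonneg (mul_nonneg (sub_nonneg.2 q0) (sub_nonneg.2 q1)) (sub_nonneg.2 q0)]

private theorem cube {X : ℝ} (X0 : 0 ≤ X) : 3 / 4 * X - 1 / 4 ≤ X ^ 3 := by
  nlinarith [mul_nonneg (by linarith : 0 ≤ X + 1) (sq_nonneg (X - 1 / 2))]

private theorem c2a {p X : ℝ} (p0 : 13 / 20 ≤ p) (p1 : p ≤ 1) (X0 : 0 ≤ X) (Xp : X ≤ p) :
    41 / 20 - p - 13 / 20 + (p * X - X ^ 3 / 3) + 13 / 20 * (p - X) * (13 / 10 + p - X) / 4 ≤ 239 / 200 := by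
  nlinarith [mul_nonneg (sub_nonneg.2 p0) (sub_nonneg.2 p1), mul_nonneg X0 (sub_nonneg.2 Xp), mul_nonneg X0 (sub_nonneg.2 p1),
    mul_nonneg (sub_nonneg.2 p0) (sub_nonneg.2 Xp), cube X0, mul_nonneg X0 (sq_nonneg (X - 1 / 2)), mul_nonneg X0 (sq_nonneg (X - 13 / 20)), sq_nonneg (X - 13 / 20)]

private theorem c2b {p X : ℝ} (p0 : 13 / 20 ≤ p) (p1 : p ≤ 1) (X0 : 0 ≤ X) (Xp : X ≤ p) :
    41 / 20 - p - p + (p * X - X ^ 3 / 3) + p * (p - X) * (3 * p - X) / 4 ≤ 239 / 200 := by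
  nlinarith [mul_nonneg (sub_nonneg.2 p0) (sub_nonneg.2 p1), mul_nonneg X0 (sub_nonneg.2 Xp), mul_nonneg X0 (sub_nonneg.2 p1),
    mul_nonneg (sub_nonneg.2 p0) (sub_nonneg.2 Xp), cube X0, mul_nonneg X0 (sq_nonneg (X - 1 / 2)), mul_nonneg X0 (sq_nonneg (X - 13 / 20)),
    mul_nonneg (mul_nonneg (sub_nonneg.2 p0) (sub_nonneg.2 p1)) (sub_nonneg.2 Xp), mul_nonneg (mul_nonneg (sub_nonneg.2 p0) (sub_nonneg.2 p1)) X0,
    mul_nonneg (mul_nonneg X0 (sub_nonneg.2 Xp)) (sub_nonneg.2 p0), mul_nonneg (mul_nonneg X0 (sub_nonneg.2 Xp)) (sub_nonneg.2 p1)]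

private theorem c2 {p q X : ℝ} (q0 : 13 / 20 ≤ q) (pq : q ≤ p) (p1 : p ≤ 1) (X0 : 0 ≤ X) (Xp : X ≤ p) :
    HH p + HH q + (p * X - X ^ 3 / 3) + q * (q + p - X) ^ 2 / 4 - q ^ 3 / 4 ≤ 239 / 200 := by
  have hp0 : 13 / 20 ≤ p := q0.trans pq
  have e1 := HHl q0 (pq.trans p1)
  have e2 := HHl hp0 p1
  have e3 := c2a hp0 p1 X0 Xp
  have e4 := c2b hp0 p1 X0 Xp
  -- convexity in q
  rcases eq_or_lt_of_le hp0 with h | h
  · have hp : p = 13 / 20 := h.symm
    have hq : q = 13 / 20 := le_antisymm (by linarith) q0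
    rw [hp] at e3 e2
    rw [hq] at e1
    rw [hp, hq]
    linarith [e1, e2, e3]
  · have key : (p - 13 / 20) * (q * (q + p - X) ^ 2 / 4 - q ^ 3 / 4 - q) ≤
        (p - q) * (13 / 20 * (p - X) * (13 / 10 + p - X) / 4 - 13 / 20) + (q - 13 / 20) * (p * (p - X) * (3 * p - X) / 4 - p) := by
      have := mul_nonneg (mul_nonneg (mul_nonneg (sub_nonneg.2 q0) (sub_nonneg.2 pq)) (sub_nonneg.2 Xp)) (sub_nonneg.2 hp0)
      nlinarith
    have k1 := mul_le_mul_of_nonneg_left e3 (sub_nonneg.2 pq)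
    have k2 := mul_le_mul_of_nonneg_left e4 (sub_nonneg.2 q0)
    have k3 : (p - 13 / 20) * (41 / 20 - p - q + (p * X - X ^ 3 / 3) + (q * (q + p - X) ^ 2 / 4 - q ^ 3 / 4)) ≤ (p - 13 / 20) * (239 / 200) := by
      nlinarith
    have k4 := le_of_mul_le_mul_left k3 (sub_pos.2 h)
    linarith

private theorem one_side {w A B : ℝ} (w0 : 0 < w) (B0 : 0 < B) (hB : B ≤ w) (hA : w ≤ A) :
    w * B * (A + B - w) - B ^ 3 / 3 ≤ w * (A + B) ^ 2 / 4 - w ^ 3 / 4 := by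
  obtain ⟨r, hr⟩ : ∃ r, r = A - w := ⟨_, rfl⟩
  have hA' : A = w + r := by linarith
  have r0 : 0 ≤ r := by linarith
  subst hA'
  -- w (r + B) (2 w + r + B) / 4 - w B (r + B) + B ^ 3 / 3 >= 0
  have h1 : 0 ≤ w * (B * (4 * B ^ 2 - 9 * w * B + 6 * w ^ 2)) := by
    have : 0 ≤ 4 * B ^ 2 - 9 * w * B + 6 * w ^ 2 := by nlinarith [sq_nonneg (4 * B - 9 / 2 * w), sq_nonneg w]
    positivity
  have h2 : 0 ≤ B * (4 * B ^ 2 - 9 * w * B + 6 * w ^ 2) := by
    have : 0 ≤ 4 * B ^ 2 - 9 * w * B + 6 * w ^ 2 := by nlinarith [sq_nonneg (4 * B - 9 / 2 * w), sq_nonneg w]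
    positivity
  have h3 : 0 ≤ w * r * (2 * (w - B)) := by
    have := sub_nonneg.2 hB
    positivity
  have h4 : 0 ≤ w * r ^ 2 := by positivity
  nlinarith




private theorem both_in {w s A B : ℝ} (hs : s = A + B) (lo : w < s) :
    (s - w) * A * B - (s - w) ^ 3 / 3 ≤ w * s ^ 2 / 4 - w ^ 3 / 4 := by
  have h1 : A * B ≤ s ^ 2 / 4 := by rw [hs]; nlinarith [sq_nonneg (A - B)]
  have h2 : (s - w) * (A * B) ≤ (s - w) * (s ^ 2 / 4) := mul_le_mul_of_nonneg_left h1 (by linarith)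
  have h3 : 0 ≤ (s - w) * (s ^ 2 - 5 * s * w + 7 * w ^ 2) :=
    mul_nonneg (by linarith) (by nlinarith [sq_nonneg (s - 5 / 2 * w), sq_nonneg w])
  nlinarith

theorem fAB_d {w A B : ℝ} (h : Dom w A B) : fAB w A B ≤ w * (A + B) ^ 2 / 4 - w ^ 3 / 4 := by
  have w0 := h.w0
  rcases fAB_cases h with ⟨a, b, e⟩ | ⟨a, b, e⟩ | ⟨a, b, e⟩ | ⟨a, b, e⟩
  · rw [e]
    have := mul_nonneg h.w0.le (sq_nonneg (A - B))
    have h3 : 0 < w ^ 3 := by positivity
    nlinarith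
  · rw [e]
    exact one_side w0 h.B0 a b
  · rw [e]
    have := one_side w0 h.A0 a b
    rw [add_comm B A] at this
    exact this
  · rw [e]
    exact both_in rfl h.lo

variable {A : Fin 4 → Fin 4 → Option (Fin 4 → ℝ)}

/-- the main cell of a tall class -/
theorem tall_main (h : OF A) {i m x y : Fin 4} {M F : Fin 4 → ℝ} (hc : TC A i m M F)
    (hn : [i, m, x, y].Nodup) : VV A i ≤ HH (2 + F m) + fcl i F := by
  have ht := hc.nums h hn
  have e1 := ht.fM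
  have e2 := ht.vv
  have e3 := HH_anti (by linarith [hc.hw]) ht.wt ht.t1
  have e4 : 0 ≤ (M i - 1) * ((1 - (M m + (M i - 1))) * (5 - (M m + (M i - 1)))) :=
    mul_nonneg ht.d0 (mul_nonneg (by linarith [ht.t1]) (by linarith [ht.t1]))
  have e5 : 0 ≤ (1 - (M i - 1)) * (M x + (1 + (M m + (M i - 1))) / 2) ^ 2 :=
    mul_nonneg (by linarith [hc.hd]) (sq_nonneg _)
  linarith

private theorem half {h : OF A} {a b g y : Fin 4} {M N F G : Fin 4 → ℝ} (ha : TC A a g M F)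
    (hb : TC A b g N G) (hn : [a, g, b, y].Nodup) (hn' : [b, g, a, y].Nodup) (hFG : G y ≤ F y) :
    VV A a + VV A b ≤ 239 / 200 := by
  have tr := two_rst h ha.hF hb.hF hn
  rw [max_eq_left hFG] at tr
  have cF := h.cell a g F ha.hF
  have fF := h.far a g F ha.ne ha.hF
  have cG := h.cell b g G hb.hF
  have fG := h.far b g G hb.ne hb.hF
  have dF := far_dom cF hn fF.le
  have dG := far_dom cG hn' fG.le
  have sG := (cell_lin cG hn').1
  have m1 := tall_main h ha hn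
  have m2 := tall_main h hb hn'
  have vG : fcl b G ≤ (2 + G g) * (1 + (2 + G g) - (G b - 1)) ^ 2 / 4 - (2 + G g) ^ 3 / 4 := by
    rw [far_AB cG hn' fG.le]
    have := fAB_d dG
    rw [show 1 - (G a + (G b - 1)) + (1 - (G y + (G b - 1))) = 1 + (2 + G g) - (G b - 1) by linarith] at this
    exact this
  have hp := ha.hw
  have hq := hb.hw
  have p1 := dF.w1
  have q1 := dG.w1
  have G1 : G b - 1 ≤ 1 := by linarith [dG.lo]
  obtain ⟨p, hp'⟩ : ∃ p, p = 2 + F g := ⟨_, rfl⟩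
  obtain ⟨q, hq'⟩ : ∃ q, q = 2 + G g := ⟨_, rfl⟩
  rw [← hp'] at hp p1 m1 tr dF
  rw [← hq'] at hq q1 m2 vG tr
  have B0 := dF.B0
  rcases le_total p q with hpq | hpq
  · rw [min_eq_right (by linarith)] at tr
    obtain ⟨X, hX⟩ : ∃ X, X = (G b - 1) + q - 1 := ⟨_, rfl⟩
    have hBX : 1 - (F y + (F a - 1)) ≤ X := by linarith
    have vF : fcl a F ≤ p * X := by
      rw [far_AB cF hn fF.le, ← hp']
      exact fAB_c dF hBX
    have := c1 hp.le hpq q1 (X := X) (by linarith) (by linarith)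
    rw [show 1 + q - (G b - 1) = 2 * q - X by linarith] at vG
    linarith
  · rw [min_eq_left (by linarith)] at tr
    obtain ⟨X, hX⟩ : ∃ X, X = (G b - 1) + p - 1 := ⟨_, rfl⟩
    have hBX : 1 - (F y + (F a - 1)) ≤ X := by linarith
    have vF : fcl a F ≤ p * X - X ^ 3 / 3 := by
      rw [far_AB cF hn fF.le, ← hp']
      exact fAB_w dF hBX (by linarith)
    have := c2 hq.le hpq p1 (X := X) (by linarith) (by linarith)
    rw [show 1 + q - (G b - 1) = q + p - X by linarith] at vG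
    linarith

/-- two tall classes with far cells in the same column -/
theorem tall_pair (h : OF A) {a b g y : Fin 4} {M N F G : Fin 4 → ℝ} (ha : TC A a g M F)
    (hb : TC A b g N G) (hn : [a, b, g, y].Nodup) : VV A a + VV A b ≤ 239 / 200 := by
  have n1 : [a, g, b, y].Nodup := by clear * - hn; revert hn; revert a b g y; decide
  have n2 : [b, g, a, y].Nodup := by clear * - hn; revert hn; revert a b g y; decide
  rcases le_total (G y) (F y) with hFG | hFG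
  · exact half (h := h) ha hb n1 n2 hFG
  · have := half (h := h) hb ha n2 n1 hFG
    linarith

/-- **`H4` of `caseTwoTall_of`.** -/
theorem tall_same (A : Fin 4 → Fin 4 → Option (Fin 4 → ℝ)) (P : Fin 4 → Fin 4 → ℝ) (a b g h : Fin 4)
    (F G : Fin 4 → ℝ) (hn : [a, b, g, h].Nodup) (T : Tall2 A P a g F b g G) :
    ∑ i, VV A i ≤ 613 / 200 := by
  have n1 : [g, h, a, b].Nodup := by clear * - hn; revert hn; revert a b g h; decide
  have n2 := nodup_ne n1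
  have ta : TC A a g (P a) F := ⟨T.hP a, T.hd a, n2.2.1.symm, T.hF, T.wF⟩
  have tb : TC A b g (P b) G := ⟨T.hP b, T.hd b, n2.2.2.symm, T.hG, T.wG⟩
  have e1 := tall_pair T.of ta tb hn
  have e2 := pair_le T.of n1
  rw [sum4 hn]
  linarith

end Pool.Agent.Helper58.TS
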